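import Pool.Agent.E8helper2.PS.Stm

set_option autoImplicit false
open MeasureTheory Filter Topology
namespace Pool.Agent.E8helper45.PS
open Pool.Agent.E8helper2.PS

theorem hline (h3 : S_CONT) (c : ℕ → ℂ) (M : ℝ) (hc : ∀ n, ‖c n‖ ≤ M) (t : ℝ) (ht : 0 < t) :
    Continuous (fun x : ℝ => Phi c ((x : ℂ) + t * Complex.I)) := by
  have h := (h3 c M hc).1.continuousOn
  exact h.comp_continuous (by fun_prop) fun x => by simpa using ht

theorem hline_neg (h3 : S_CONT) (c : ℕ → ℂ) (M : ℝ) (hc : ∀ n, ‖c n‖ ≤ M) (t : ℝ) (ht : 0 < t) :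
    Continuous (fun x : ℝ => Phi c (-(x : ℂ) + t * Complex.I)) := by
  have h := (h3 c M hc).1.continuousOn
  exact h.comp_continuous (by fun_prop) fun x => by simpa using ht

end Pool.Agent.E8helper45.PS
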