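import Mathlib

/-! The kernel and the Riemann–Lebesgue lemma for `S_LONG`. -/

set_option autoImplicit false
open MeasureTheory Filter Topology
namespace Pool.Agent.E8helper45.PS

/-- the kernel -/
noncomputable def ker (x₁ x₂ q : ℝ) (w : ℂ) : ℂ :=
  ((w - x₁) / (w - x₁ + q)) * (((x₂ : ℂ) - w) / ((x₂ : ℂ) - w + q))

theorem norm_le_add (z : ℂ) (q : ℝ) (hz : 0 ≤ z.re) (_hq : 0 < q) : ‖z‖ ≤ ‖z + q‖ := by
  rw [Complex.norm_eq_sqrt_sq_add_sq, Complex.norm_eq_sqrt_sq_add_sq]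
  apply Real.sqrt_le_sqrt
  simp only [Complex.add_re, Complex.ofReal_re, Complex.add_im, Complex.ofReal_im, add_zero]
  nlinarith [_hq]

theorem q_le (z : ℂ) (q : ℝ) (hz : 0 ≤ z.re) (hq : 0 < q) : q ≤ ‖z + q‖ := by
  have h := Complex.re_le_norm (z + q)
  simp only [Complex.add_re, Complex.ofReal_re] at h
  linarith

theorem ne_zero (z : ℂ) (q : ℝ) (hz : 0 ≤ z.re) (hq : 0 < q) : z + (q : ℂ) ≠ 0 := by
  intro h
  have := q_le z q hz hq
  rw [h, norm_zero] at this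
  linarith

theorem fac_le (z : ℂ) (q : ℝ) (hz : 0 ≤ z.re) (hq : 0 < q) : ‖z / (z + q)‖ ≤ 1 := by
  rw [norm_div]
  have := q_le z q hz hq
  rw [div_le_one (by linarith)]
  exact norm_le_add z q hz hq

theorem fac_sub (z : ℂ) (q : ℝ) (hz : 0 ≤ z.re) (hq : 0 < q) (hi : z.im ≠ 0) :
    ‖1 - z / (z + q)‖ ≤ q / |z.im| := by
  have hne := ne_zero z q hz hq
  have e : 1 - z / (z + q) = q / (z + q) := by
    field_simp
    ring
  rw [e, norm_div, Complex.norm_real, Real.norm_eq_abs, abs_of_pos hq]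
  have h1 : |z.im| ≤ ‖z + q‖ := by
    have := Complex.abs_im_le_norm (z + q)
    simpa using this
  exact div_le_div_of_nonneg_left hq.le (abs_pos.2 hi) h1

theorem ker_le_one (x₁ x₂ q : ℝ) (w : ℂ) (hq : 0 < q) (h1 : x₁ ≤ w.re) (h2 : w.re ≤ x₂) :
    ‖ker x₁ x₂ q w‖ ≤ 1 := by
  unfold ker
  rw [norm_mul]
  have a := fac_le (w - x₁) q (by simpa using h1) hq
  have b := fac_le ((x₂ : ℂ) - w) q (by simpa using h2) hq
  exact mul_le_one₀ a (norm_nonneg _) b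

theorem ker_sub (x₁ x₂ q : ℝ) (w : ℂ) (hq : 0 < q) (h1 : x₁ ≤ w.re) (h2 : w.re ≤ x₂) (hi : w.im ≠ 0) :
    ‖1 - ker x₁ x₂ q w‖ ≤ 2 * q / |w.im| := by
  unfold ker
  have a := fac_le (w - x₁) q (by simpa using h1) hq
  have a' := fac_sub (w - x₁) q (by simpa using h1) hq (by simpa using hi)
  have b' := fac_sub ((x₂ : ℂ) - w) q (by simpa using h2) hq (by simpa using hi)
  have e1 : |(w - (x₁ : ℂ)).im| = |w.im| := by simp
  have e2 : |((x₂ : ℂ) - w).im| = |w.im| := by simp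
  rw [e1] at a'
  rw [e2] at b'
  have e : 1 - ((w - x₁) / (w - x₁ + q)) * (((x₂ : ℂ) - w) / ((x₂ : ℂ) - w + q)) =
      (1 - (w - x₁) / (w - x₁ + q)) +
        ((w - x₁) / (w - x₁ + q)) * (1 - ((x₂ : ℂ) - w) / ((x₂ : ℂ) - w + q)) := by ring
  rw [e]
  refine (norm_add_le _ _).trans ?_
  rw [norm_mul]
  have h3 : ‖(w - (x₁ : ℂ)) / (w - x₁ + q)‖ * ‖1 - ((x₂ : ℂ) - w) / ((x₂ : ℂ) - w + q)‖ ≤
      1 * (q / |w.im|) := mul_le_mul a b' (norm_nonneg _) (by norm_num)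
  have h4 : 2 * q / |w.im| = q / |w.im| + 1 * (q / |w.im|) := by ring
  rw [h4]
  exact add_le_add a' h3

theorem ker_left (x₁ x₂ q y : ℝ) (hq : 0 < q) (h : x₁ ≤ x₂) :
    ‖ker x₁ x₂ q ((x₁ : ℂ) + (y : ℂ) * Complex.I)‖ ≤ |y| / q := by
  unfold ker
  rw [norm_mul]
  have b := fac_le ((x₂ : ℂ) - ((x₁ : ℂ) + (y : ℂ) * Complex.I)) q (by simpa using h) hq
  have a : ‖((x₁ : ℂ) + (y : ℂ) * Complex.I - x₁) / ((x₁ : ℂ) + (y : ℂ) * Complex.I - x₁ + q)‖ ≤ |y| / q := by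
    have e : (x₁ : ℂ) + (y : ℂ) * Complex.I - x₁ = (y : ℂ) * Complex.I := by ring
    rw [e, norm_div, norm_mul, Complex.norm_I, mul_one, Complex.norm_real, Real.norm_eq_abs]
    exact div_le_div_of_nonneg_left (abs_nonneg _) hq (q_le _ q (by simp) hq)
  calc _ ≤ |y| / q * 1 := mul_le_mul a b (norm_nonneg _) (by positivity)
    _ = |y| / q := mul_one _

theorem ker_right (x₁ x₂ q y : ℝ) (hq : 0 < q) (h : x₁ ≤ x₂) :
    ‖ker x₁ x₂ q ((x₂ : ℂ) + (y : ℂ) * Complex.I)‖ ≤ |y| / q := by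
  unfold ker
  rw [norm_mul]
  have b := fac_le ((x₂ : ℂ) + (y : ℂ) * Complex.I - x₁) q (by simpa using h) hq
  have a : ‖((x₂ : ℂ) - ((x₂ : ℂ) + (y : ℂ) * Complex.I)) /
      ((x₂ : ℂ) - ((x₂ : ℂ) + (y : ℂ) * Complex.I) + q)‖ ≤ |y| / q := by
    have e : (x₂ : ℂ) - ((x₂ : ℂ) + (y : ℂ) * Complex.I) = -((y : ℂ) * Complex.I) := by ring
    rw [e, norm_div, norm_neg, norm_mul, Complex.norm_I, mul_one, Complex.norm_real, Real.norm_eq_abs]
    exact div_le_div_of_nonneg_left (abs_nonneg _) hq (q_le _ q (by simp) hq)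
  calc _ ≤ 1 * (|y| / q) := mul_le_mul b a (norm_nonneg _) (by norm_num)
    _ = |y| / q := one_mul _

theorem ker_diff (x₁ x₂ q : ℝ) (w : ℂ) (hq : 0 < q) (h1 : x₁ ≤ w.re) (h2 : w.re ≤ x₂) :
    DifferentiableAt ℂ (ker x₁ x₂ q) w := by
  unfold ker
  have a := ne_zero (w - x₁) q (by simpa using h1) hq
  have b := ne_zero ((x₂ : ℂ) - w) q (by simpa using h2) hq
  refine DifferentiableAt.mul (DifferentiableAt.div (by fun_prop) (by fun_prop) a)
    (DifferentiableAt.div (by fun_prop) (by fun_prop) b)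

/-- the Riemann–Lebesgue lemma on an interval -/
theorem rl (f : ℝ → ℂ) (x₁ x₂ : ℝ) (h : x₁ ≤ x₂) :
    Tendsto (fun N : ℕ => ∫ θ in x₁..x₂, Complex.exp (-(Complex.I * N * (θ : ℂ))) * f θ) atTop (𝓝 0) := by
  have key := Real.tendsto_integral_exp_smul_cocompact (Set.indicator (Set.Ioc x₁ x₂) f)
  have hN : Tendsto (fun N : ℕ => (N : ℝ) / (2 * Real.pi)) atTop (cocompact ℝ) := by
    refine Tendsto.mono_right ?_ atTop_le_cocompact
    exact tendsto_natCast_atTop_atTop.atTop_div_const (by positivity)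
  have h2 := key.comp hN
  refine h2.congr fun N => ?_
  rw [intervalIntegral.integral_of_le h, ← integral_indicator measurableSet_Ioc]
  simp only [Function.comp_apply]
  refine integral_congr_ae (Filter.Eventually.of_forall fun v => ?_)
  beta_reduce
  by_cases hv : v ∈ Set.Ioc x₁ x₂
  · rw [Set.indicator_of_mem hv, Set.indicator_of_mem hv, Circle.smul_def, Real.fourierChar_apply,
      smul_eq_mul]
    congr 2
    push_cast
    have : (Real.pi : ℂ) ≠ 0 := by exact_mod_cast Real.pi_ne_zero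
    field_simp
  · rw [Set.indicator_of_notMem hv, Set.indicator_of_notMem hv, smul_zero]

end Pool.Agent.E8helper45.PS
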