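import Pool.Agent.E8helper2.PS.Stm

/-! Side estimates for `S_LONG`. -/

set_option autoImplicit false
open MeasureTheory Filter Topology
namespace Pool.Agent.E8helper45.PS
open Pool.Agent.E8helper2.PS

theorem pt (h3 : S_CONT) (h1 : S_ABEL) (c : ℕ → ℂ) (M κ d y : ℝ) (hc : ∀ n, ‖c n‖ ≤ M)
    (hW : Win c M κ) (hy : 0 < y) (hy1 : y ≤ 1) :
    ‖Phi c ((κ : ℂ) + (d : ℂ) + (y : ℂ) * Complex.I)‖ ≤ M + |d| * (16 * M / y ^ 2) := by
  obtain ⟨hd, -, hb⟩ := h3 c M hc
  have hA := h1 c M κ y hW hy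
  have hconv : Convex ℝ {w : ℂ | w.im = y} := by
    intro a ha b hb s t hs ht hst
    simp only [Set.mem_ofPred_eq] at ha hb ⊢
    simp only [Complex.add_im, Complex.real_smul, Complex.mul_im, Complex.ofReal_re,
      Complex.ofReal_im, zero_mul, add_zero, ha, hb]
    rw [← add_mul, hst, one_mul]
  have hopen : IsOpen {w : ℂ | 0 < w.im} := isOpen_lt continuous_const Complex.continuous_im
  have key := Convex.norm_image_sub_le_of_norm_deriv_le (f := Phi c) (C := 16 * M / y ^ 2)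
    (s := {w : ℂ | w.im = y}) (x := (κ : ℂ) + (y : ℂ) * Complex.I)
    (y := (κ : ℂ) + (d : ℂ) + (y : ℂ) * Complex.I)
    (fun w hw => by
      have hw' : 0 < w.im := by rw [Set.mem_ofPred_eq] at hw; rw [hw]; exact hy
      exact (hd w hw').differentiableAt (hopen.mem_nhds hw'))
    (fun w hw => by
      have hw' : w.im = y := hw
      have := hb w (by rw [hw']; exact hy) (by rw [hw']; exact hy1)
      rw [hw'] at this
      exact this)
    hconv (by simp) (by simp)
  have e : ‖((κ : ℂ) + (d : ℂ) + (y : ℂ) * Complex.I) - ((κ : ℂ) + (y : ℂ) * Complex.I)‖ = |d| := by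
    have : ((κ : ℂ) + (d : ℂ) + (y : ℂ) * Complex.I) - ((κ : ℂ) + (y : ℂ) * Complex.I) = (d : ℂ) := by
      ring
    rw [this, Complex.norm_real, Real.norm_eq_abs]
  rw [e] at key
  calc ‖Phi c ((κ : ℂ) + (d : ℂ) + (y : ℂ) * Complex.I)‖
      = ‖(Phi c ((κ : ℂ) + (d : ℂ) + (y : ℂ) * Complex.I) - Phi c ((κ : ℂ) + (y : ℂ) * Complex.I)) +
          Phi c ((κ : ℂ) + (y : ℂ) * Complex.I)‖ := by rw [sub_add_cancel]
    _ ≤ _ := (norm_add_le _ _).trans (by linarith)

/-- a vertical side; `f` may be any function which is `K y * Phi c (κ + d + i y)` for `0 < y ≤ τ` -/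
theorem side (h3 : S_CONT) (h1 : S_ABEL) (c : ℕ → ℂ) (M κ d s τ : ℝ) (hc : ∀ n, ‖c n‖ ≤ M)
    (hW : Win c M κ) (hs : 0 < s) (hd : |d| ≤ s) (hτ : 0 < τ) (hτ1 : τ ≤ 1) (K f : ℝ → ℂ)
    (hK1 : ∀ y : ℝ, 0 < y → y ≤ τ → ‖K y‖ ≤ 1)
    (hK2 : ∀ y : ℝ, 0 < y → y ≤ τ → ‖K y‖ ≤ y / s ^ (1 / 4 : ℝ))
    (hf : ∀ y : ℝ, 0 < y → y ≤ τ → f y = K y * Phi c ((κ : ℂ) + (d : ℂ) + (y : ℂ) * Complex.I)) :
    ‖∫ y in (0 : ℝ)..τ, f y‖ ≤ 17 * M * τ + 2 * M * s ^ (1 / 4 : ℝ) := by
  have hM : 0 ≤ M := (norm_nonneg _).trans (hc 0)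
  obtain ⟨q, hq⟩ : ∃ q : ℝ, q = s ^ (1 / 4 : ℝ) := ⟨_, rfl⟩
  have hq0 : 0 < q := by rw [hq]; positivity
  obtain ⟨b, hb⟩ : ∃ b : ℝ, b = s ^ (1 / 2 : ℝ) := ⟨_, rfl⟩
  have hb0 : 0 < b := by rw [hb]; positivity
  have hbb : b * b = s := by
    rw [hb, ← Real.rpow_add hs]
    norm_num
  have hqb : b / q = q := by
    rw [div_eq_iff hq0.ne', hb, hq, ← Real.rpow_add hs]
    norm_num
  rw [← hq]
  rw [← hq] at hK2
  obtain ⟨-, hP, -⟩ := h3 c M hc
  have hpt : ∀ y : ℝ, 0 < y → y ≤ τ → ‖f y‖ ≤ 17 * M + Set.indicator (Set.Iio b) (fun _ => 2 * M / q) y := by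
    intro y hy hyτ
    rw [hf y hy hyτ, norm_mul]
    by_cases hyb : y < b
    · rw [Set.indicator_of_mem (by exact hyb)]
      have h4 : ‖Phi c ((κ : ℂ) + (d : ℂ) + (y : ℂ) * Complex.I)‖ ≤ 2 * M / y := by
        have := hP ((κ : ℂ) + (d : ℂ) + (y : ℂ) * Complex.I) (by simpa using hy)
          (by simpa using hyτ.trans hτ1)
        simpa using this
      calc ‖K y‖ * ‖Phi c ((κ : ℂ) + (d : ℂ) + (y : ℂ) * Complex.I)‖ ≤ (y / q) * (2 * M / y) :=
            mul_le_mul (hK2 y hy hyτ) h4 (norm_nonneg _) (by positivity)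
        _ = 2 * M / q := by field_simp
        _ ≤ 17 * M + 2 * M / q := by linarith
    · rw [Set.indicator_of_notMem (by exact hyb), add_zero]
      have hyb' : b ≤ y := not_lt.1 hyb
      have h4 := pt h3 h1 c M κ d y hc hW hy (hyτ.trans hτ1)
      have h5 : |d| * (16 * M / y ^ 2) ≤ 16 * M := by
        have h6 : |d| ≤ y ^ 2 := by
          calc |d| ≤ s := hd
            _ = b * b := hbb.symm
            _ ≤ y ^ 2 := by nlinarith
        have hy2 : 0 < y ^ 2 := by positivity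
        calc |d| * (16 * M / y ^ 2) = |d| / y ^ 2 * (16 * M) := by ring
          _ ≤ 1 * (16 * M) := by
              refine mul_le_mul_of_nonneg_right ?_ (by linarith)
              rw [div_le_one hy2]
              exact h6
          _ = 16 * M := one_mul _
      calc ‖K y‖ * ‖Phi c ((κ : ℂ) + (d : ℂ) + (y : ℂ) * Complex.I)‖ ≤ 1 * (17 * M) :=
            mul_le_mul (hK1 y hy hyτ) (by linarith) (norm_nonneg _) (by norm_num)
        _ = 17 * M := one_mul _
  have hint : IntervalIntegrable (fun y : ℝ => 17 * M + Set.indicator (Set.Iio b) (fun _ => 2 * M / q) y)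
      volume 0 τ := by
    refine intervalIntegrable_const.add ?_
    rw [intervalIntegrable_iff_integrableOn_Ioc_of_le hτ.le]
    exact (integrable_const (2 * M / q)).indicator measurableSet_Iio
  have h7 : ‖∫ y in (0 : ℝ)..τ, f y‖ ≤
      ∫ y in (0 : ℝ)..τ, (17 * M + Set.indicator (Set.Iio b) (fun _ => 2 * M / q) y) := by
    refine intervalIntegral.norm_integral_le_of_norm_le hτ.le ?_ hint
    refine Filter.Eventually.of_forall fun y hy => ?_
    exact hpt y hy.1 hy.2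
  have h8 : ∫ y in (0 : ℝ)..τ, (17 * M + Set.indicator (Set.Iio b) (fun _ => 2 * M / q) y) ≤
      17 * M * τ + 2 * M * q := by
    rw [intervalIntegral.integral_add intervalIntegrable_const (by
      rw [intervalIntegrable_iff_integrableOn_Ioc_of_le hτ.le]
      exact (integrable_const (2 * M / q)).indicator measurableSet_Iio)]
    rw [intervalIntegral.integral_const, intervalIntegral.integral_of_le hτ.le,
      setIntegral_indicator measurableSet_Iio, setIntegral_const]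
    have h9 : (volume.real (Set.Ioc 0 τ ∩ Set.Iio b)) ≤ b := by
      have h10 : volume (Set.Ioc 0 τ ∩ Set.Iio b) ≤ volume (Set.Ioo 0 b) :=
        measure_mono fun y hy => ⟨hy.1.1, hy.2⟩
      rw [Real.volume_Ioo, sub_zero] at h10
      exact ENNReal.toReal_le_of_le_ofReal hb0.le h10
    have h11 : (volume.real (Set.Ioc 0 τ ∩ Set.Iio b)) • (2 * M / q) ≤ 2 * M * q := by
      rw [smul_eq_mul]
      calc volume.real (Set.Ioc 0 τ ∩ Set.Iio b) * (2 * M / q) ≤ b * (2 * M / q) :=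
            mul_le_mul_of_nonneg_right h9 (by positivity)
        _ = 2 * M * (b / q) := by ring
        _ = 2 * M * q := by rw [hqb]
    have h12 : (τ - 0) • (17 * M) = 17 * M * τ := by rw [smul_eq_mul]; ring
    linarith
  exact h7.trans h8

end Pool.Agent.E8helper45.PS
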